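import Pool.Agent.Helper19.HM.Goals

/-!
# Packet HM-PSI (MP_bb32d1_al, lower half of Haiman's theorem)
-/

set_option autoImplicit false

namespace Pool.Agent.Helper33.HM

noncomputable section

open Pool.Agent.Helper19.SQ Pool.Agent.Helper19.HM MvPolynomial Module

theorem prod_map_X {n : ℕ} (w : List (Fin n ⊕ Fin n)) :
    ((w.map X).prod : Pn n) = monomial (Multiset.toFinsupp (w : Multiset (Fin n ⊕ Fin n))) 1 := by
  classical
  induction w with
  | nil =>
    rw [List.map_nil, List.prod_nil, Multiset.coe_nil, map_zero]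
    rfl
  | cons a w ih =>
    rw [List.map_cons, List.prod_cons, ih, ← Multiset.cons_coe, ← Multiset.singleton_add,
      map_add, Multiset.toFinsupp_singleton]
    rw [X, monomial_mul, one_mul]

theorem monomial_eq_prod {n : ℕ} (s : (Fin n ⊕ Fin n) →₀ ℕ) :
    (monomial s 1 : Pn n) = ((Finsupp.toMultiset s).toList.map X).prod := by
  classical
  rw [prod_map_X, Multiset.coe_toList, Finsupp.toMultiset_toFinsupp]

theorem length_toList {n : ℕ} (s : (Fin n ⊕ Fin n) →₀ ℕ) :
    (Finsupp.toMultiset s).toList.length = s.degree := by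
  rw [Multiset.length_toList, Finsupp.card_toMultiset]
  rfl

/-- a linear condition on homogeneous polynomials can be checked on words. -/
theorem mem_of_words {n : ℕ} {V : Type} [AddCommGroup V] [Module ℂ V] (L : Pn n →ₗ[ℂ] V)
    (U : Submodule ℂ V) (k : ℕ)
    (h : ∀ w : List (Fin n ⊕ Fin n), w.length = k → L ((w.map X).prod) ∈ U)
    (f : Pn n) (hf : f.IsHomogeneous k) : L f ∈ U := by
  rw [f.as_sum, map_sum]
  refine Submodule.sum_mem U fun s hs => ?_
  have h1 : (monomial s (coeff s f) : Pn n) = coeff s f • monomial s 1 := by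
    rw [smul_monomial, smul_eq_mul, mul_one]
  rw [h1, map_smul]
  refine U.smul_mem _ ?_
  rw [monomial_eq_prod]
  refine h _ ?_
  rw [length_toList, Finsupp.degree_eq_weight_one]
  exact hf (mem_support_iff.mp hs)

/-- **PSI**. -/
theorem c_psi (h : S_PRM) : S_PSI := by
  classical
  intro n V _ _ H δ hn hδ
  obtain ⟨mono, opG, sop, sG, perm⟩ := h n V H δ hn hδ
  have one : ∀ w : List (Fin n ⊕ Fin n),
      H.psi δ ((w.map X).prod) - H.op w δ ∈ H.G δ w.length := by
    intro w
    rw [prod_map_X, H.psi_monomial, Multiset.toFinsupp_toMultiset]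
    have hp : (w : Multiset (Fin n ⊕ Fin n)).toList.Perm w := by
      rw [← Multiset.coe_eq_coe, Multiset.coe_toList]
    have h1 := perm _ _ hp
    rwa [hp.length_eq] at h1
  refine ⟨one, ?_, ?_⟩
  · intro w k f hf
    let L : Pn n →ₗ[ℂ] V := (H.psi δ) ∘ₗ (LinearMap.mulLeft ℂ ((w.map X).prod : Pn n))
      - (H.op w) ∘ₗ (H.psi δ)
    have hL : ∀ f, L f = H.psi δ ((w.map X).prod * f) - H.op w (H.psi δ f) := fun f => rfl
    have h1 : L f ∈ H.G δ (k + w.length) := by
      refine mem_of_words L _ k (fun w' hw' => ?_) f hf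
      rw [hL]
      have h2 := one (w ++ w')
      have h3 : H.op w (H.psi δ (w'.map X).prod - H.op w' δ) ∈ H.G δ (w'.length + w.length) :=
        opG w _ _ (one w')
      have h4 : H.op (w ++ w') δ = H.op w (H.op w' δ) := by
        unfold HMod.op
        rw [List.map_append, List.prod_append]
        rfl
      rw [List.map_append, List.prod_append, h4, List.length_append, add_comm w.length] at h2
      rw [hw'] at h2 h3
      have h5 := Submodule.sub_mem _ h2 h3
      rw [map_sub] at h5
      have h6 : H.psi δ ((w.map X).prod * (w'.map X).prod) - H.op w (H.psi δ (w'.map X).prod)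
          = H.psi δ ((w.map X).prod * (w'.map X).prod) - H.op w (H.op w' δ)
            - (H.op w (H.psi δ (w'.map X).prod) - H.op w (H.op w' δ)) := by abel
      rw [h6]
      exact h5
    exact h1
  · intro g k f hf
    let L : Pn n →ₗ[ℂ] V := (H.s g) ∘ₗ (H.psi δ)
      - ((Equiv.Perm.sign g : ℤ) : ℂ) • ((H.psi δ) ∘ₗ (rn g).toLinearMap)
    have hL : ∀ f, L f = H.s g (H.psi δ f)
      - ((Equiv.Perm.sign g : ℤ) : ℂ) • H.psi δ (rn g f) := fun f => rfl
    have h1 : L f ∈ H.G δ k := by
      refine mem_of_words L _ k (fun w' hw' => ?_) f hf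
      rw [hL]
      have h2 : rn g ((w'.map X).prod : Pn n) = (((w'.map (Sum.map g g)).map X).prod : Pn n) := by
        rw [map_list_prod, List.map_map, List.map_map]
        refine congrArg List.prod (List.map_congr_left fun a _ => ?_)
        rw [Function.comp_apply, Function.comp_apply]
        exact rename_X _ _
      rw [h2]
      have h3 := one (w'.map (Sum.map g g))
      rw [List.length_map, hw'] at h3
      have h4 : H.s g (H.psi δ (w'.map X).prod - H.op w' δ) ∈ H.G δ k := by
        refine sG g k _ ?_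
        have := one w'
        rwa [hw'] at this
      rw [map_sub, sop] at h4
      have h5 := Submodule.sub_mem _ h4
        (Submodule.smul_mem _ (((Equiv.Perm.sign g : ℤ) : ℂ)) h3)
      rw [smul_sub] at h5
      have h6 : H.s g (H.psi δ (w'.map X).prod)
          - ((Equiv.Perm.sign g : ℤ) : ℂ) • H.psi δ ((w'.map (Sum.map g g)).map X).prod
          = H.s g (H.psi δ (w'.map X).prod)
            - ((Equiv.Perm.sign g : ℤ) : ℂ) • H.op (w'.map (Sum.map g g)) δ
            - (((Equiv.Perm.sign g : ℤ) : ℂ) • H.psi δ ((w'.map (Sum.map g g)).map X).prod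
              - ((Equiv.Perm.sign g : ℤ) : ℂ) • H.op (w'.map (Sum.map g g)) δ) := by abel
      rw [h6]
      exact h5
    exact h1

end

end Pool.Agent.Helper33.HM
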